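import Pool.Agent.H220.K.Levi

set_option autoImplicit false

open Set Filter Topology Metric
open scoped ContDiff ComplexConjugate

/-!
# MP_0015b7_an : the statements to be proved, with complete paper proofs

The aim: a strictly pseudoconvex domain `Ω ⊂ ℂ³` with smooth boundary whose core is not pluripolar.
The domain is a component of `{v(Ψ(x)) < 0}`, where `Ψ = lim G_0 ∘ ... ∘ G_{m-1}` and
`v(p,q,w) = ∑ 2^{-j} log |(p,q) - (P_j, conj P_j)| + |p|² + |q|² - 20 + (1/2) log (1 + |w|²)`.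
All norms on `E3 = ℂ × ℂ × ℂ` are the sup norm of the product (`Prod.norm_def`).
-/

namespace Pool.Agent.H220.K

/-- **S_tail** (locally uniform convergence of the compositions; no complex analysis).

Proof. Let `R ≥ 1`. For `|p| ≤ R` one has `|A_n(p)| ≤ 2^{-n²}(R+1)^n = ((R+1)/2^n)^n`, so there is
`n₁` with `|A_n(p)| ≤ 2^{-n}` for all `n ≥ n₁`, `|p| ≤ R`. Take `M₁` with `2 M₁ ≥ n₁` and
`12 R² 4^{-M₁} ≤ R`.
(1) One step: if `m ≥ M₁`, `|p| ≤ R`, `|a|, |b| ≤ 2R`, `G_m(p,a,b) = (p,a',b')`, then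
`|b' - b| ≤ 2^{-2m-1} 4R² ≤ R`, `|b'| ≤ 3R`, `|a' - a| ≤ 2^{-2m} 9R²`, so
`‖G_m x - x‖ ≤ 9 R² 4^{-m}`.
(2) By induction on `N` (for all `m ≥ M₁`, `x ∈ closedBall 0 R`):
`‖tail N m x - x‖ ≤ 12 R² 4^{-m} ≤ R` (since `9·4^{-m} + 12·4^{-m-1} = 12·4^{-m}`), so all the
intermediate points stay in `closedBall 0 (2R)`, with first coordinate `p`.
(3) Lipschitz: for `m ≥ M₁` and `y, y'` in `closedBall 0 (2R)` with the same first coordinate `p`,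
`|p| ≤ R`: `‖G_m y - G_m y'‖ ≤ (1 + c 4^{-m}) ‖y - y'‖` with `c = c(R)`. The product of these
constants over `m ≥ M₁` is at most some `L`. Since
`tail (N+k) m x = (G_m ∘ ... ∘ G_{m+N-1}) (tail k (m+N) x)`, one gets
`‖tail (N+k) m x - tail N m x‖ ≤ L ‖tail k (m+N) x - x‖ ≤ 12 L R² 4^{-(m+N)}`:
uniformly Cauchy on `closedBall 0 R` for every `m ≥ M₁(R)`.
(4) For `m < M₁`: `tail N m x = H (tail (N-(M₁-m)) M₁ x)` with `H = G_m ∘ ... ∘ G_{M₁-1}`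
continuous, hence uniformly continuous on the compact `closedBall 0 (2R)`; so it is uniformly Cauchy
on `closedBall 0 R` too. The limits `T m x` exist for all `m, x` (take `R = ‖x‖ + 1`) and the
convergence is uniform on balls. The second claim is (2) with `N → ∞`. -/
def S_tail : Prop :=
  ∀ P : ℕ → ℂ, (∀ j, ‖P j‖ ≤ 1) → ∃ T : ℕ → E3 → E3,
    (∀ (m : ℕ) (R : ℝ), TendstoUniformlyOn (fun N x => tail P N m x) (T m) atTop
      (closedBall 0 R)) ∧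
    ∀ R ε : ℝ, 0 < ε → ∃ M : ℕ, ∀ m ≥ M, ∀ x ∈ closedBall (0 : E3) R, ‖T m x - x‖ ≤ ε

/-- **S_hol** (limits of holomorphic maps).

Proof. Cauchy estimate: `Pool.Graph.R_pool_sql_team_ae5b0c61.H97.SCV` (`norm_fderiv_le`, or Mathlib's
`norm_fderiv_le_div_of_mapsTo_ball`): the derivatives of `f n - f k` on `closedBall 0 R` are bounded
by `2 sup_{closedBall 0 (R+1)} ‖f n - f k‖`, so `fderiv ℂ (f n)` is uniformly Cauchy on balls and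
converges; then `hasFDerivAt_of_tendstoUniformlyOn(Filter)` shows that `g` is differentiable. -/
def S_hol : Prop :=
  ∀ (f : ℕ → E3 → E3) (g : E3 → E3), (∀ n, Differentiable ℂ (f n)) →
    (∀ R : ℝ, TendstoUniformlyOn f g atTop (closedBall 0 R)) → Differentiable ℂ g

/-- **S_escA** (escape lemma).

Proof. Put `σ_l = (-log ‖A l‖ + log 2)/2^{l+1} ≥ 0`. By induction on `n`:
`log ‖y (n+1)‖ ≥ 2^n (2S + 10 - ∑_{l<n} σ_l)`, `y (n+1) ≠ 0` and `‖y n‖ ≤ ‖y (n+1)‖`.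
`n = 0`: `S ≥ 0` (sum over the empty set), so `‖y 1‖ ≥ 1 ≥ ‖y 0‖`. Step: since
`S ≥ ∑_{l<n} σ_l + σ_n`, `2S - ∑_{l<n} σ_l ≥ 2 σ_n`, so
`log ‖y (n+1)‖ ≥ 2^{n+1} σ_n = -log ‖A n‖ + log 2`, i.e. `‖A n‖ ‖y (n+1)‖ ≥ 2`. Hence
`‖y (n+2)‖ ≥ ‖A n‖ ‖y (n+1)‖² - ‖y n‖ ≥ ‖A n‖ ‖y (n+1)‖² - ‖y (n+1)‖ ≥ (1/2) ‖A n‖ ‖y (n+1)‖²
≥ ‖y (n+1)‖` and `log ‖y (n+2)‖ ≥ 2 log ‖y (n+1)‖ + log ‖A n‖ - log 2
≥ 2^{n+1} (2S + 10 - ∑_{l<n} σ_l) - 2^{n+1} σ_n`. Finally `2S + 10 - ∑_{l<n} σ_l ≥ 10` as `S ≥ 0`. -/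
def S_escA : Prop :=
  ∀ (a : ℕ → ℂ) (y : ℕ → ℂ) (S : ℝ), (∀ n, a n ≠ 0) → (∀ n, ‖a n‖ ≤ 1) →
    (∀ n : ℕ, ∑ l ∈ Finset.range n, (-Real.log ‖a l‖ + Real.log 2) / 2 ^ (l + 1) ≤ S) →
    (∀ n, y (n + 2) = y n + a n * y (n + 1) ^ 2) → ‖y 0‖ ≤ 1 → 2 * S + 10 ≤ Real.log ‖y 1‖ →
    ∀ n : ℕ, 10 * 2 ^ n ≤ Real.log ‖y (n + 1)‖

/-- **S_esc** (uses `S_escA`): points `(p, conj p, w)`, `|p| ≤ 1`, with bounded orbit lie in the
domain.

Proof. Suppose `vt P δ (p, conj p, w) ≥ 0` for all `δ > 0`. Put `D_j = D2 P j (p, conj p) =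
2 |p - P_j|² ≤ 8` and `B = rest (p, conj p, w) ≤ -18 + (1/2) log (1+|w|²)`. For `0 < δ ≤ 8` the
assumption says `∑_j 2^{-j} (1/2) log (8 / max D_j δ) ≤ log 8 + B` (`∑ 2^{-j} = 2`), a series of
nonnegative terms (all terms are bounded by `2^{-j} (1/2) log (8/δ)`, so it is summable); the same
bound holds for the partial sums. If some `D_j = 0`, the `j`-th term `2^{-j} (1/2) log (8/δ)` tends to
`∞` for `δ → 0`: contradiction. So `D_j > 0`, `p ≠ P_j` for all `j`, and with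
`δ ≤ min_{j<n} D_j` one gets, with `M_j := (1/2) log (8 / D_j) = log 2 - log |p - P_j| ≥ 0`,
`(*) ∑_{j<n} 2^{-j} M_j ≤ log 8 - 18 + (1/2) log (1+|w|²)` for all `n`.
With `n = 0`: `(1/2) log (1+|w|²) ≥ 15`, so `|w| ≥ 1`, `(1/2) log (1+|w|²) ≤ (1/2) log 2 + log |w|`,
and `∑_{j<n} 2^{-j} M_j ≤ log |w| + 3.5 log 2 - 18`.
Let `a n = A P n p ≠ 0`; `|a n| = 2^{-n²} ∏_{j<n} |p - P_j| ≤ 2^{-n²+n} ≤ 1`;
`-log |a n| = n² log 2 - ∑_{j<n} log |p - P_j| ≤ n² log 2 + ∑_{j<n} M_j`.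
`∑_{l<n} (l²+1)/2^{l+1} = 4 - (n²+2n+4)/2^n ≤ 4` (induction) and
`∑_{l<n} 2^{-(l+1)} ∑_{j<l} M_j = ∑_{j<n} M_j (2^{-(j+1)} - 2^{-n}) ≤ (1/2) ∑_{j<n} 2^{-j} M_j`
(induction). So `∑_{l<n} (-log |a l| + log 2)/2^{l+1} ≤ 4 log 2 + (1/2)(log |w| + 3.5 log 2 - 18)
≤ (1/2) log |w| - 5 =: S`. Let `y 0 = conj p`, `y 1 = w`, `y (n+2) = y n + a n y(n+1)²`; then
`Phi P m (p, conj p, w) = (p, y (2m), y (2m+1))` (induction on `m`). By `S_escA`,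
`log |y (n+1)| ≥ 10·2^n`, so `|y (2m+1)|` is unbounded: contradiction. -/
def S_esc : Prop :=
  ∀ P : ℕ → ℂ, (∀ j, ‖P j‖ ≤ 1) → ∀ (p w : ℂ) (M : ℝ), ‖p‖ ≤ 1 →
    (∀ m, ‖Phi P m (p, conj p, w)‖ ≤ M) → ∃ δ : ℝ, 0 < δ ∧ vt P δ (p, conj p, w) < 0

/-- **S_smooth** : `g0` is `C^∞` with nonnegative Levi form off `Pi0`.

Proof. `Pi0` is closed and contains all the points `Z_j = (P_j, conj P_j)`. Let `y ∉ Pi0` and
`ρ > 0` with `ball y (2ρ) ∩ Pi0 = ∅`; then `‖y' - Z_j‖ ≥ ρ` and `ρ² ≤ D2 P j y' ≤ C` for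
`y' ∈ ball y ρ` and all `j`. With `ℓ(Y) = (1/2) log (‖Y.1‖² + ‖Y.2‖²)`, `C^∞` off `0`, the `j`-th
term is `2^{-j} ℓ(· - Z_j)`, whose derivatives of each order on `ball y ρ` are bounded by
`C_k 2^{-j}` (compactness of `{ρ ≤ ‖Y‖ ≤ ‖y‖ + ρ + 1}`, `iteratedFDeriv_comp_sub`). Multiply the
terms by a smooth bump function `χ` (`= 1` near `y`, supported in `ball y ρ`) and use
`contDiff_tsum` and `iteratedFDeriv_tsum` (`norm_iteratedFDeriv_mul_le` or its `Within` version for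
the bounds). Alternatively: the terms are restrictions to `r = conj p, s = conj q` of the
holomorphic functions `(1/2) Log ((p-P_j)(r-conj P_j) + (q-conj P_j)(s-P_j))` of `(p,q,r,s)`, which
are uniformly bounded near `(p°,q°,conj p°,conj q°)`; so their sum `∑ 2^{-j}(...)` is holomorphic,
hence analytic (`H97.SCV.analyticAt_of_differentiableOn` in the library), hence `C^∞`.
Levi form: that of `ℓ(· - Z_j)` at `y` in direction `ξ` is, with `Y = y - Z_j`,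
`(1/2) (|ξ|² |Y|² - |⟨Y, ξ⟩|²)/|Y|⁴ ≥ 0` (Euclidean norms, Cauchy-Schwarz; compare `levi_log_norm`
in `Levi.lean`), and the second derivatives may be summed termwise. -/
def S_smooth : Prop :=
  ∀ P : ℕ → ℂ, (∀ j, ‖P j‖ ≤ 1) → ∀ y : ℂ × ℂ, y ∉ Pi0 →
    ContDiffAt ℝ ∞ (g0 P) y ∧ ∀ ξ : ℂ × ℂ, 0 ≤ levi (g0 P) y ξ

/-- **S_rad** : radial derivative of `g0` (differentiability of `g0` at `y` is assumed).

Proof. Put `φ(t) = g0 P ((1+t) y)`; `φ'(0) = fderiv ℝ (g0 P) y y`. For `t > 0` small,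
`D2_j ((1+t) y) - D2_j (y) = (2t + t²)|y|² - 2t Re ⟨y, Z_j⟩ ≥ 2t |y| (|y| - |Z_j|) ≥ 0` (Euclidean
norms, `|Z_j|² = 2|P_j|² ≤ 2 ≤ |y|²`) and `D2_j (y) > 0` (`y ∉ Pi0`), so each term of the series is
at least as large at `(1+t) y` as at `y`. Both series are summable: near `y ∉ Pi0` (closed set, contains
all `Z_j`) `D2_j` is bounded below by a positive constant and above, uniformly in `j`. So
`φ(t) ≥ φ(0)` and `φ'(0) ≥ 0`. -/
def S_rad : Prop :=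
  ∀ P : ℕ → ℂ, (∀ j, ‖P j‖ ≤ 1) → ∀ y : ℂ × ℂ, y ∉ Pi0 → 2 ≤ ‖y.1‖ ^ 2 + ‖y.2‖ ^ 2 →
    DifferentiableAt ℝ (g0 P) y → 0 ≤ fderiv ℝ (g0 P) y y

/-- **S_vv** (uses `S_smooth` and `S_rad`) : the defining function in the coordinates `(p,q,w)`.

Proof. Smoothness: `vv = g0 ∘ (x ↦ (x.1, x.2.1)) + rest`. Levi form: with `ξ = (ξ₁, ξ₂, ξ₃)`,
`levi vv x ξ = levi g0 (x.1,x.2.1) (ξ₁,ξ₂) + |ξ₁|² + |ξ₂|² + (1/2) |ξ₃|²/(1+|w|²)²`
(`levi_add`, `levi_norm_sq`; for `(1/2) log (1 + |w + ζ ξ₃|²)` a direct computation as in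
`levi_log_norm`), which is `> 0` for `ξ ≠ 0`. Gradient, at `x = (p,q,w)` with `vv x = 0`: if `w ≠ 0`
then the derivative in direction `(0,0,w)` is `|w|²/(1+|w|²) > 0`. If `w = 0`, put `Z = (p,q)`; if
`|p|²+|q|² ≤ 4` then `D2_j Z ≤ (2+√2)² ≤ 12`, `g0 Z ≤ ∑ 2^{-j} (1/2) log 12 = log 12 < 3`,
`vv x < 3 + 4 - 20 < 0`: contradiction. (Summability of the series for `g0 Z`: `D2_j Z` is
bounded above and, as `Z ∉ Pi0`, bounded below by a positive constant.) So `|p|²+|q|² > 4` and the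
derivative in direction `(p,q,0)` is `fderiv g0 Z Z + 2(|p|²+|q|²) > 0` by `S_rad`. -/
def S_vv : Prop :=
  ∀ P : ℕ → ℂ, (∀ j, ‖P j‖ ≤ 1) → ∀ x : E3, (x.1, x.2.1) ∉ Pi0 →
    ContDiffAt ℝ ∞ (vv P) x ∧ (∀ ξ : E3, ξ ≠ 0 → 0 < levi (vv P) x ξ) ∧
      (vv P x = 0 → fderiv ℝ (vv P) x ≠ 0)

/-- **S_trunc** : the truncated function `gt`.

Proof. (a) On `closedBall 0 R`, `δ ≤ max (D2 P j y) δ ≤ C(R, δ)` for all `j`, so the terms are
continuous and bounded by `2^{-j} C'`: `continuousOn_tsum`. (b) termwise, both series summable.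
(c) `Pi0` is closed and contains all `(P_j, conj P_j)`; take `ρ > 0` with `ball y (2ρ)` disjoint from
it; then `D2 P j y' ≥ ρ²` for `y' ∈ ball y ρ` and all `j`; `δ0 = ρ²`. (d) `D2 P j ≥ (‖x.1‖-1)² ≥ 81`
so all the terms of `gt` are `≥ 0`, and `rest x ≥ 100 - 20 ≥ 0`. -/
def S_trunc : Prop :=
  ∀ P : ℕ → ℂ, (∀ j, ‖P j‖ ≤ 1) →
    (∀ δ : ℝ, 0 < δ → Continuous (gt P δ)) ∧
    (∀ δ δ' : ℝ, 0 < δ → δ ≤ δ' → ∀ y, gt P δ y ≤ gt P δ' y) ∧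
    (∀ y : ℂ × ℂ, y ∉ Pi0 → ∃ δ0 : ℝ, 0 < δ0 ∧ ∀ᶠ y' in 𝓝 y, ∀ δ : ℝ, 0 < δ → δ ≤ δ0 →
      gt P δ y' = g0 P y') ∧
    (∀ δ : ℝ, 0 < δ → ∀ x : E3, 10 ≤ ‖x.1‖ → 0 ≤ vt P δ x)

/-- **S_chain** : chain rule for the Levi form under holomorphic maps (two versions).

Proof. For `c ∈ {1, I}` the curve `γ(t) = Ψ (x + t c ξ)` has `γ'(0) = c DΨ(x) ξ`,
`γ''(0) = c² D²Ψ(x)(ξ,ξ)` (complex bilinear), and
`(φ∘γ)''(0) = D²φ(γ(0))(γ'(0),γ'(0)) + Dφ(γ(0)) γ''(0)`. Adding for `c = 1` and `c = I` the last terms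
cancel (`c² = 1, -1`), and for the linear curve `t ↦ Ψ x + t c DΨ(x) ξ` only the first terms are
present. -/
def S_chain : Prop :=
  (∀ (Ψ : E3 → E3) (φ : E3 → ℝ) (x ξ : E3), ContDiffAt ℂ 2 Ψ x → ContDiffAt ℝ 2 φ (Ψ x) →
    levi (fun y => φ (Ψ y)) x ξ = levi φ (Ψ x) (fderiv ℂ Ψ x ξ)) ∧
  (∀ (L : ℂ → E3) (φ : E3 → ℝ) (ζ : ℂ), ContDiffAt ℂ 2 L ζ → ContDiffAt ℝ 2 φ (L ζ) →
    levi (fun y => φ (L y)) ζ 1 = levi φ (L ζ) (deriv L ζ))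

/-- **S_lcont** : continuity of the Levi form of a `C²` function.

Proof. For `z` near `z₀`, `levi φ z ξ = (D²φ(z)(ξ,ξ) + D²φ(z)(Iξ,Iξ))/4` with
`D²φ = fderiv ℝ (fderiv ℝ φ)`, which is continuous near `z₀`. -/
def S_lcont : Prop :=
  ∀ (φ : E3 → ℝ) (z ξ : E3), ContDiffAt ℝ 2 φ z →
    ContinuousAt (fun q : E3 × E3 => levi φ q.1 q.2) (z, ξ)

/-- **S_comp** : near a boundary point where `dV ≠ 0` the component of `{V < 0}` is `{V < 0}`.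

Proof. Let `C = connectedComponentIn O x₀`. `z ∈ frontier C` is not in `O` (else a neighbourhood of `z`
which is connected and contained in `O` meets `C`, so `z` is interior to `C`). So `V z ≥ 0`, and
`V z ≤ 0` as `z ∈ closure C` and `V` is continuous. Take `e` with `dV(z) e > 0` and `r > 0` such
that on `ball z r`: `V` is differentiable, `dV(y) e > 0`, and `y ∈ O ↔ V y < 0`. Let `τ > 0`,
`τ ‖e‖ < r/2`; `V` is strictly decreasing along `t ↦ y - t e` inside `ball z r`, so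
`V (z - τ e) < 0` and `V < 0` on some `ball (z - τ e) s`, `s < r/2`. For `y ∈ ball z s` with
`V y < 0` the set `S_y = {y - t e : 0 ≤ t ≤ τ} ∪ ball (z - τ e) s` is connected (`y - τ e` is in both
parts) and contained in `O`. As `z ∈ closure C` there is `y' ∈ C ∩ ball z s`, so
`S_{y'} ⊆ C`, hence `ball (z - τ e) s ⊆ C`, hence `S_y ⊆ C` for every such `y`. Conversely
`C ⊆ O`. -/
def S_comp : Prop :=
  ∀ (V : E3 → ℝ) (O : Set E3) (x₀ z : E3), IsOpen O → z ∈ frontier (connectedComponentIn O x₀) →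
    (∀ᶠ y in 𝓝 z, (y ∈ O ↔ V y < 0)) → ContDiffAt ℝ 1 V z → fderiv ℝ V z ≠ 0 →
    ∀ᶠ y in 𝓝 z, (y ∈ connectedComponentIn O x₀ ↔ V y < 0)

/-- **S_liou** : Liouville theorem for smooth subharmonic functions on `ℂ`.

Proof. Library `Pool.Graph.R_pool_sql_team_seeded_2aa45f1a.Q171.Core.Basic` (`three_circles`; its `lap u p`
is `4 * levi u p 1`). By translation and continuity it is enough to show `s ζ ≤ s ζ' + ε` for
`ζ ≠ ζ'`, `ε > 0`: choose `ρ < |ζ - ζ'|` with `s ≤ s ζ' + ε` on `|· - ζ'| ≤ ρ`, apply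
`three_circles` to `u(η) = s(ζ' + η)` on `ρ ≤ |η| ≤ R` with `m = s ζ' + ε`, `M` the upper bound,
`K = (M - m)⁺ / log (R/ρ)`, and let `R → ∞`. -/
def S_liou : Prop :=
  ∀ (s : ℂ → ℝ) (M : ℝ), ContDiff ℝ 2 s → (∀ ζ, 0 ≤ levi s ζ 1) → (∀ ζ, s ζ ≤ M) →
    ∀ ζ ζ' : ℂ, s ζ = s ζ'

/-- **S_visc** : plurisubharmonic functions have the test function property.

Proof. Let `x ∈ V`, `u x ≠ ⊥`, `φ` be `C²` near `x` with `u y ≤ φ y - φ x + u x` near `x`, and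
`ξ : E3`. Suppose `levi φ x ξ = -2c < 0`. The function `s(ζ) = φ(x + ζ ξ)` is `C²` near `0` with
`levi s 0 1 = -2c`, and by Taylor `s(ζ) ≤ s(0) + Re (a ζ + b ζ²) + (-2c + c) |ζ|²` for `|ζ| ≤ r`, some
complex `a, b` and `r > 0` small (real quadratic forms on `ℂ` are `Re (b ζ²) + λ |ζ|²`, with `λ`
the Levi form). Apply the mean inequality of `PSH` to the disc `x + ζ (r ξ)`, `|ζ| ≤ 1`, with the
continuous majorant `h(ζ) = u x + Re (a r ζ + b r² ζ²) - c r² |ζ|²`, whose circle average over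
`|ζ| = 1` is `u x - c r²` (the average of `Re` of a polynomial is the value at the center):
`u x ≤ u x - c r²`, contradiction. -/
def S_visc : Prop :=
  ∀ (V : Set E3) (u : E3 → EReal), IsOpen V → PSH V u → Visc V u

/-- **S_bar** : a function with the test function property that is `-∞` on the totally real piece
`{q = conj p}` is `-∞` near it.

Proof. Let `x₁ = (p₁, conj p₁, w₁)` and `τ > 0` with `closedBall x₁ τ ⊆ W` (sup norm); `v ≤ M` on this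
compact ball (`v` usc, `≠ ⊤`). Claim: `v x₀ = ⊥` if `x₀ = (p₀,q₀,w₀)`, `‖x₀ - x₁‖ < τ/50`. If
`q₀ = conj p₀` this is assumed. Otherwise let `e = p₀ - conj q₀ ≠ 0`, `d = |e| ≤ τ/25`,
`c = 2 conj q₀ - p₀`, so `p₀ - c = 2e`, `q₀ - conj c = conj e`. For `x = (p,q,w)` let `ζ = p - c`,
`η = (p-c)(q - conj c) - 2d²`; `η(x₀) = 0`, `|ζ(x₀)| = 2d`. For `0 < δ ≤ min (d²) (τ/2)` let
`K_δ = {√2 d ≤ |ζ| ≤ 4d, |η| ≤ δ, |w - w₀| ≤ δ}`, a compact subset of `closedBall x₁ τ`: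
`|p - p₁| ≤ 4d + |c - p₁| ≤ 4τ/25 + 3τ/50`, `|q - conj c| = |η + 2d²|/|ζ| ≤ 3d²/(√2 d) < 3d`,
`|q - conj p₁| ≤ 3τ/25 + 3τ/50`, `|w - w₁| ≤ τ/2 + τ/50`.
Suppose `v x₀ = s₀` real (`s₀ ≤ M`). Put `κ = (M + 3 - s₀)/log 2 > 0` and
`φ(x) = M + 1 + κ log (|ζ|/(4d)) + (1/(16d²)) (16 d² - |ζ|²) + L (|η|² + |w - w₀|²)`. Then
`φ(x₀) = M + 1 - (M + 3 - s₀) + 3/4 < s₀`. On the boundary: (i) `|ζ| = 4d`: `φ ≥ M + 1 > v`.
(ii) `|ζ| = √2 d`: there `φ ≥ m₀ := M + 1 + κ log (√2/4)`; the points with moreover `η = 0`,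
`w = w₀` satisfy `ζ (q - conj c) = |ζ|²`, so `q = conj p` and `v = ⊥`; by upper semicontinuity and
compactness there is `δ` such that `v < m₀` on `K_δ ∩ {|ζ| = √2 d}` (fix this `δ`).
(iii) `|η| = δ` or `|w - w₀| = δ`: `φ ≥ M + 1 - κ log 4 + L δ² ≥ M + 1` for `L = κ log 4 / δ²`.
So `v - φ` (usc) attains on `K_δ` its maximum, which is `≥ v x₀ - φ x₀ > 0`, at a point `x*` with
strict inequalities in the definition of `K_δ`, i.e. an interior point, where `v ≠ ⊥`. The test function property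
gives `levi φ x* ξ ≥ 0` for `ξ = (1, -(q* - conj c)/ζ*, 0)`. But along `x* + t ξ` one has `ζ = ζ* + t`,
`η = η* - t² (q* - conj c)/ζ*`, `w = w*`, so `levi φ x* ξ = 0 - 1/(16d²) + 0 < 0` (`levi_log_norm`,
`levi_norm_sq`, `levi_add`, `levi_const_mul`, `levi_line`). Contradiction. -/
def S_bar : Prop :=
  ∀ (W : Set E3) (v : E3 → EReal) (x₁ : E3), IsOpen W → x₁ ∈ W → x₁ ∈ Plane →
    UpperSemicontinuousOn v W → (∀ x ∈ W, v x ≠ ⊤) → (∀ x ∈ W ∩ Plane, v x = ⊥) → Visc W v →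
    ∀ᶠ x in 𝓝 x₁, v x = ⊥

/-- **S_prop** : propagation of `-∞` in connected open sets.

Proof. (N) If the closed disc `z + ζ ξ`, `|ζ| ≤ 1`, is in `V` and `u (z + ζ ξ) = ⊥` for `|ζ| = 1`,
`|ζ - 1| < ε`, then `u z = ⊥`: let `u ≤ M` on the circle (usc, `≠ ⊤`, compact); apply the mean inequality to
`h_K(ζ) = M - K max 0 (1 - |ζ - 1|/ε)`, whose average is `M - K c` with `c > 0` independent of `K`;
let `K → ∞`. Let `B = {z ∈ V : u = ⊥ near z}`: open, nonempty; it is closed in `V`: if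
`z ∈ V ∩ closure B` and `ball z (4ρ) ⊆ V`, take `a ∈ B`, `‖a - z‖ < ρ`; for `y ∈ ball z ρ` the disc
`y + ζ (a - y)`, `|ζ| ≤ 1`, is in `ball z (4ρ)` and `u = ⊥` at its points with `ζ` near `1` (`u = ⊥`
near `a`; if `a = y` nothing to prove), so `u y = ⊥` by (N). So `B = V` by connectedness. -/
def S_prop : Prop :=
  ∀ (V : Set E3) (u : E3 → EReal), IsOpen V → IsPreconnected V → PSH V u →
    (∃ z₁ ∈ V, ∀ᶠ z in 𝓝 z₁, u z = ⊥) → ∀ z ∈ V, u z = ⊥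

/-- **S_nonpp** (uses `S_visc`, `S_bar`, `S_prop`, `S_chain`) : a set containing a piece of
`Ψ⁻¹ {q = conj p}` is not pluripolar.

Proof. Let `V` be a connected open neighbourhood of `z₁`, `u` psh on `V` with `u = ⊥` on `K ∩ V`. By the
inverse function theorem `Ψ` is a homeomorphism from a neighbourhood of `z₁` onto a neighbourhood
of `Ψ z₁`, with holomorphic inverse `Θ`. On a small open `W ∋ Ψ z₁`, `v = u ∘ Θ` is usc, `≠ ⊤`, `= ⊥` on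
`W ∩ Plane`, and has the test function property: if `φ` touches `v` from above at `x` then
`φ ∘ Ψ` touches `u` from above at `Θ x`, so `levi (φ∘Ψ) (Θ x) ξ = levi φ x (DΨ ξ) ≥ 0` for all `ξ`
(`S_visc`, `S_chain`), and `DΨ(Θ x)` is onto. By `S_bar` `v = ⊥` near `Ψ z₁`, so `u = ⊥` near
`z₁`, so `u = ⊥` on `V` by `S_prop`. -/
def S_nonpp : Prop :=
  ∀ (K : Set E3) (Ψ : E3 → E3) (z₁ : E3), ContDiff ℂ 2 Ψ →
    (∀ z, Function.Bijective (fderiv ℂ Ψ z)) → Ψ z₁ ∈ Plane →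
    (∀ᶠ z in 𝓝 z₁, Ψ z ∈ Plane → z ∈ K) → ¬ Pluripolar K

end Pool.Agent.H220.K
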