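import Pool.Agent.H220.K.Stm
import Pool.Graph.R_pool_sql_team_ae5b0c61.H97.SCV

set_option autoImplicit false

open Set Filter Topology Metric
open scoped ContDiff ComplexConjugate

namespace Pool.Agent.H220.K

variable (P : ℕ → ℂ)

theorem F_fst (m : ℕ) (x : E3) : (F P m x).1 = x.1 := rfl
theorem G_fst (m : ℕ) (x : E3) : (G P m x).1 = x.1 := rfl

theorem GF (m : ℕ) (x : E3) : G P m (F P m x) = x := by
  obtain ⟨p, a, b⟩ := x
  simp only [F, G]
  refine Prod.ext rfl (Prod.ext ?_ ?_)
  · simp only; ring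
  · simp only; ring

theorem FG (m : ℕ) (x : E3) : F P m (G P m x) = x := by
  obtain ⟨p, a, b⟩ := x
  simp only [F, G]
  refine Prod.ext rfl (Prod.ext ?_ ?_)
  · simp only; ring
  · simp only; ring

theorem Phi_fst (m : ℕ) (x : E3) : (Phi P m x).1 = x.1 := by
  induction m with
  | zero => rfl
  | succ m ih => exact ih

theorem Psi_fst (m : ℕ) (x : E3) : (Psi P m x).1 = x.1 := by
  induction m generalizing x with
  | zero => rfl
  | succ m ih => exact (ih _).trans rfl

theorem tail_fst (N m : ℕ) (x : E3) : (tail P N m x).1 = x.1 := by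
  induction N generalizing m with
  | zero => rfl
  | succ N ih => exact ih (m + 1)

theorem Psi_Phi (m : ℕ) (x : E3) : Psi P m (Phi P m x) = x := by
  induction m generalizing x with
  | zero => rfl
  | succ m ih =>
    show Psi P m (G P m (F P m (Phi P m x))) = x
    rw [GF, ih]

theorem Phi_Psi (m : ℕ) (x : E3) : Phi P m (Psi P m x) = x := by
  induction m generalizing x with
  | zero => rfl
  | succ m ih =>
    show F P m (Phi P m (Psi P m (G P m x))) = x
    rw [ih, FG]

theorem A_contDiff {n : WithTop ℕ∞} (k : ℕ) : ContDiff ℂ n (A P k) := by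
  unfold A
  exact contDiff_const.mul (contDiff_prod fun j _ => contDiff_id.sub contDiff_const)

theorem F_contDiff {n : WithTop ℕ∞} (m : ℕ) : ContDiff ℂ n (F P m) := by
  unfold F
  have h1 : ContDiff ℂ n (fun x : E3 => A P (2 * m) x.1) := (A_contDiff P _).comp contDiff_fst
  have h2 : ContDiff ℂ n (fun x : E3 => A P (2 * m + 1) x.1) := (A_contDiff P _).comp contDiff_fst
  fun_prop

theorem G_contDiff {n : WithTop ℕ∞} (m : ℕ) : ContDiff ℂ n (G P m) := by
  unfold G
  have h1 : ContDiff ℂ n (fun x : E3 => A P (2 * m) x.1) := (A_contDiff P _).comp contDiff_fst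
  have h2 : ContDiff ℂ n (fun x : E3 => A P (2 * m + 1) x.1) := (A_contDiff P _).comp contDiff_fst
  fun_prop

theorem Phi_contDiff {n : WithTop ℕ∞} (m : ℕ) : ContDiff ℂ n (Phi P m) := by
  induction m with
  | zero => exact contDiff_id
  | succ m ih => exact (F_contDiff P m).comp ih

theorem Psi_contDiff {n : WithTop ℕ∞} (m : ℕ) : ContDiff ℂ n (Psi P m) := by
  induction m with
  | zero => exact contDiff_id
  | succ m ih => exact ih.comp (G_contDiff P m)

theorem tail_contDiff {n : WithTop ℕ∞} (N m : ℕ) : ContDiff ℂ n (tail P N m) := by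
  induction N generalizing m with
  | zero => exact contDiff_id
  | succ N ih => exact (G_contDiff P m).comp (ih (m + 1))

theorem A_zero {j n : ℕ} (h : j < n) : A P n (P j) = 0 := by
  unfold A
  rw [Finset.prod_eq_zero (Finset.mem_range.mpr h) (sub_self _), mul_zero]

theorem G_at {j m : ℕ} (h : j < 2 * m) {x : E3} (hx : x.1 = P j) : G P m x = x := by
  unfold G
  rw [hx, A_zero P h, A_zero P (h.trans (Nat.lt_succ_self _))]
  refine Prod.ext hx.symm (Prod.ext ?_ ?_)
  · simp
  · simp

theorem tail_at {j : ℕ} (N m : ℕ) (h : j < 2 * m) {x : E3} (hx : x.1 = P j) :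
    tail P N m x = x := by
  induction N generalizing m with
  | zero => rfl
  | succ N ih =>
    show G P m (tail P N (m + 1) x) = x
    rw [ih (m + 1) (by omega), G_at P h hx]

/-- the package of properties of the limit maps -/
structure Lim (T : ℕ → E3 → E3) : Prop where
  unif : ∀ (m : ℕ) (R : ℝ), TendstoUniformlyOn (fun N x => tail P N m x) (T m) atTop
      (closedBall 0 R)
  id : ∀ R ε : ℝ, 0 < ε → ∃ M : ℕ, ∀ m ≥ M, ∀ x ∈ closedBall (0 : E3) R, ‖T m x - x‖ ≤ ε

variable {P} {T : ℕ → E3 → E3}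

theorem Lim.tendsto (h : Lim P T) (m : ℕ) (x : E3) :
    Tendsto (fun N => tail P N m x) atTop (𝓝 (T m x)) :=
  (h.unif m ‖x‖).tendsto_at (by simp)

theorem Lim.diff (h : Lim P T) (hhol : S_hol) (m : ℕ) : Differentiable ℂ (T m) :=
  hhol (fun N => tail P N m) (T m)
    (fun N => (tail_contDiff (n := 1) P N m).differentiable (by norm_num)) (h.unif m)

theorem Lim.contDiff (h : Lim P T) (hhol : S_hol) (m : ℕ) {n : WithTop ℕ∞} :
    ContDiff ℂ n (T m) := by
  rw [contDiff_iff_contDiffAt]
  intro x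
  exact (Pool.Agent.H97.SCV.analyticAt_of_differentiable (h.diff hhol m) x).contDiffAt

theorem Lim.fst (h : Lim P T) (m : ℕ) (x : E3) : (T m x).1 = x.1 := by
  have h1 : Tendsto (fun N => (tail P N m x).1) atTop (𝓝 (T m x).1) :=
    (continuous_fst.tendsto _).comp (h.tendsto m x)
  simp only [tail_fst] at h1
  exact tendsto_nhds_unique h1 tendsto_const_nhds |>.symm ▸ rfl

theorem Lim.step (h : Lim P T) (m : ℕ) (x : E3) : T m x = G P m (T (m + 1) x) := by
  have h1 := (h.tendsto m x).comp (tendsto_add_atTop_nat 1)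
  have h2 : Tendsto (fun N => G P m (tail P N (m + 1) x)) atTop (𝓝 (G P m (T (m + 1) x))) :=
    ((G_contDiff (n := 0) P m).continuous.tendsto _).comp (h.tendsto (m + 1) x)
  exact tendsto_nhds_unique h1 h2

theorem Lim.comp (h : Lim P T) (m : ℕ) (x : E3) : T 0 x = Psi P m (T m x) := by
  induction m with
  | zero => rfl
  | succ m ih =>
    rw [ih, h.step m x]
    rfl

theorem Lim.phi (h : Lim P T) (m : ℕ) (x : E3) : Phi P m (T 0 x) = T m x := by
  rw [h.comp m x, Phi_Psi]

theorem Lim.at (h : Lim P T) {j m : ℕ} (hj : j < 2 * m) {x : E3} (hx : x.1 = P j) :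
    T m x = x := by
  have h1 := h.tendsto m x
  simp only [tail_at P _ m hj hx] at h1
  exact (tendsto_nhds_unique h1 tendsto_const_nhds)

/-- on the slice `p = P j` the map is the polynomial automorphism -/
theorem Lim.psi_at (h : Lim P T) {j m : ℕ} (hj : j < 2 * m) {x : E3} (hx : x.1 = P j) :
    T 0 x = Psi P m x := by
  rw [h.comp m x, h.at hj hx]

theorem Lim.phi_inv (h : Lim P T) {j m : ℕ} (hj : j < 2 * m) {y : E3} (hy : y.1 = P j) :
    T 0 (Phi P m y) = y := by
  rw [h.psi_at hj (by rw [Phi_fst, hy]), Psi_Phi]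

theorem Lim.eq_phi (h : Lim P T) {j m : ℕ} (hj : j < 2 * m) {x : E3} (hx : x.1 = P j) :
    x = Phi P m (T 0 x) := by
  rw [h.psi_at hj hx, Phi_Psi]

theorem Lim.tendsto_id (h : Lim P T) (x : E3) : Tendsto (fun m => T m x) atTop (𝓝 x) := by
  rw [Metric.tendsto_atTop]
  intro ε hε
  obtain ⟨M, hM⟩ := h.id ‖x‖ (ε / 2) (by positivity)
  refine ⟨M, fun m hm => ?_⟩
  rw [dist_eq_norm]
  exact (hM m hm x (by simp)).trans_lt (by linarith)

theorem Lim.bdd (h : Lim P T) (x : E3) : ∃ M : ℝ, ∀ m, ‖Phi P m (T 0 x)‖ ≤ M := by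
  have h1 := Metric.isBounded_range_of_tendsto _ (h.tendsto_id x)
  rw [isBounded_iff_forall_norm_le] at h1
  obtain ⟨M, hM⟩ := h1
  exact ⟨M, fun m => by rw [h.phi m x]; exact hM _ ⟨m, rfl⟩⟩

theorem injective_of_comp {f g : E3 → E3} (hf : Differentiable ℂ f) (hg : Differentiable ℂ g)
    (hgf : ∀ x, g (f x) = x) (x : E3) : Function.Injective (fderiv ℂ f x) := by
  have h1 : HasFDerivAt (fun y => g (f y)) ((fderiv ℂ g (f x)).comp (fderiv ℂ f x)) x :=
    (hg (f x)).hasFDerivAt.comp x (hf x).hasFDerivAt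
  have h2 : HasFDerivAt (fun y : E3 => g (f y)) (ContinuousLinearMap.id ℂ E3) x := by
    have : (fun y : E3 => g (f y)) = fun y => y := funext hgf
    rw [this]
    exact hasFDerivAt_id x
  have h3 := h1.unique h2
  intro u v huv
  have h4 : ∀ w, fderiv ℂ g (f x) (fderiv ℂ f x w) = w := fun w => by
    have := DFunLike.congr_fun h3 w
    simpa using this
  rw [← h4 u, ← h4 v, huv]

theorem Lim.injective (h : Lim P T) (hhol : S_hol) (x : E3) :
    Function.Injective (fderiv ℂ (T 0) x) := by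
  obtain ⟨M, hM⟩ := h.id (‖x‖ + 1) (1 / 8) (by norm_num)
  have hd := h.diff hhol M
  have hT : Function.Injective (fderiv ℂ (T M) x) := by
    have hg : DifferentiableOn ℂ (fun y => T M y - y) (ball x 1) :=
      (hd.sub differentiable_id).differentiableOn
    have h1 : ‖fderiv ℂ (fun y => T M y - y) x‖ ≤ 2 * (1 / 8) / 1 := by
      refine Pool.Agent.H97.SCV.norm_fderiv_le one_pos hg fun y hy => hM M le_rfl y ?_
      rw [mem_closedBall_zero_iff]
      rw [mem_ball, dist_eq_norm] at hy
      have := norm_sub_norm_le y x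
      linarith
    have h2 : fderiv ℂ (fun y => T M y - y) x = fderiv ℂ (T M) x - ContinuousLinearMap.id ℂ E3 :=
      ((hd x).hasFDerivAt.sub (hasFDerivAt_id x)).fderiv
    rw [h2] at h1
    rw [injective_iff_map_eq_zero]
    intro v hv
    have h3 := (fderiv ℂ (T M) x - ContinuousLinearMap.id ℂ E3).le_opNorm v
    rw [sub_apply, hv, zero_sub, norm_neg] at h3
    simp only [ContinuousLinearMap.coe_id', id_eq] at h3
    have h4 : ‖v‖ ≤ (1 / 4) * ‖v‖ := by
      refine h3.trans ?_
      gcongr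
      linarith
    have h5 := norm_nonneg v
    have : ‖v‖ = 0 := by linarith
    exact norm_eq_zero.mp this
  have hΨ : T 0 = fun y => Psi P M (T M y) := funext (h.comp M)
  have hP : Differentiable ℂ (Psi P M) := (Psi_contDiff (n := 1) P M).differentiable (by norm_num)
  have h5 : fderiv ℂ (T 0) x = (fderiv ℂ (Psi P M) (T M x)).comp (fderiv ℂ (T M) x) := by
    rw [hΨ]
    exact ((hP (T M x)).hasFDerivAt.comp x (hd x).hasFDerivAt).fderiv
  rw [h5]
  exact (injective_of_comp hP ((Phi_contDiff (n := 1) P M).differentiable (by norm_num))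
    (Phi_Psi P M) (T M x)).comp hT

theorem Lim.bijective (h : Lim P T) (hhol : S_hol) (x : E3) :
    Function.Bijective (fderiv ℂ (T 0) x) := by
  have h1 := h.injective hhol x
  exact ⟨h1, (LinearMap.injective_iff_surjective (f := (fderiv ℂ (T 0) x : E3 →ₗ[ℂ] E3))).mp h1⟩

end Pool.Agent.H220.K
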