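import Pool.Agent.H220.K.CoreMem

set_option autoImplicit false

open Set Filter Topology Metric
open scoped ContDiff ComplexConjugate

namespace Pool.Agent.H220.K

theorem exists_P : ∃ P : ℕ → ℂ, (∀ j, ‖P j‖ < 1) ∧
    ∀ p : ℂ, ‖p‖ < 1 → ∀ ε > 0, ∃ j, ‖P j - p‖ < ε := by
  have : Nonempty (ball (0 : ℂ) 1) := ⟨⟨0, mem_ball_self one_pos⟩⟩
  refine ⟨fun j => (TopologicalSpace.denseSeq (ball (0 : ℂ) 1) j : ℂ), fun j => ?_, ?_⟩
  · exact mem_ball_zero_iff.mp (TopologicalSpace.denseSeq (ball (0 : ℂ) 1) j).2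
  · intro p hp ε hε
    have hp' : p ∈ ball (0 : ℂ) 1 := mem_ball_zero_iff.mpr hp
    have h1 := (TopologicalSpace.denseRange_denseSeq (ball (0 : ℂ) 1)).exists_dist_lt
      (⟨p, hp'⟩ : ball (0 : ℂ) 1) hε
    obtain ⟨j, hj⟩ := h1
    refine ⟨j, ?_⟩
    rw [dist_comm, Subtype.dist_eq, dist_eq_norm] at hj
    exact hj

theorem assemble (htail : S_tail) (hhol : S_hol) (hesc : S_esc) (ht : S_trunc) (hvv : S_vv)
    (hch : S_chain) (hlc : S_lcont) (hcomp : S_comp) (hli : S_liou) (hnp : S_nonpp) :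
    ∃ Ω : Set E3, IsOpen Ω ∧ IsConnected Ω ∧ (frontier Ω).Nonempty ∧
      StrictlyPseudoconvex Ω ∧ ¬ Pluripolar (core Ω) := by
  obtain ⟨P, hP, hdense⟩ := exists_P
  have hP' : ∀ j, ‖P j‖ ≤ 1 := fun j => (hP j).le
  obtain ⟨T, hT1, hT2⟩ := htail P hP'
  have hT : Lim P T := ⟨hT1, hT2⟩
  have hcd : ∀ {n : WithTop ℕ∞}, ContDiff ℂ n (T 0) := hT.contDiff hhol 0
  have hcont : Continuous (T 0) := (hcd (n := 0)).continuous
  have hOo : IsOpen (OO P (T 0)) := isOpen_OO hP' ht hcont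
  set z₁ : E3 := Phi P 1 (P 0, conj (P 0), 0) with hz₁
  have hz₁T : T 0 z₁ = (P 0, conj (P 0), 0) := hT.phi_inv (j := 0) (by omega) rfl
  have hz₁O : z₁ ∈ OO P (T 0) := curve_mem hT hP' hesc 0 0
  set Ω := connectedComponentIn (OO P (T 0)) z₁ with hΩ
  have hΩo : IsOpen Ω := hOo.connectedComponentIn
  have hz₁Ω : z₁ ∈ Ω := mem_connectedComponentIn hz₁O
  have hz₁1 : ‖z₁.1‖ < 1 := by
    rw [← hT.fst 0 z₁, hz₁T]
    exact hP 0
  refine ⟨Ω, hΩo, isConnected_connectedComponentIn_iff.mpr hz₁O, ?_,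
    strictly hT hP' hhol hesc ht hvv hch hcomp z₁, ?_⟩
  · rw [nonempty_iff_ne_empty]
    intro hfe
    have hclopen : IsClopen Ω := isClopen_iff_frontier_eq_empty.mpr hfe
    rcases isClopen_iff.mp hclopen with h | h
    · rw [h] at hz₁Ω
      exact hz₁Ω
    · have hmem : (((10 : ℂ), (0 : ℂ), (0 : ℂ)) : E3) ∈ Ω := by rw [h]; exact mem_univ _
      obtain ⟨δ, hδ, hlt⟩ := connectedComponentIn_subset _ _ hmem
      have h1 := (ht P hP').2.2.2 δ hδ (T 0 ((10 : ℂ), (0 : ℂ), (0 : ℂ))) (by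
        rw [hT.fst]
        norm_num)
      linarith
  · apply hnp (core Ω) (T 0) z₁ hcd (hT.bijective hhol)
    · rw [hz₁T]
      exact rfl
    · have e1 : ∀ᶠ z in 𝓝 z₁, z ∈ Ω := hΩo.mem_nhds hz₁Ω
      have e2 : ∀ᶠ z : E3 in 𝓝 z₁, ‖z.1‖ < 1 := by
        have : Continuous (fun z : E3 => ‖z.1‖) := by fun_prop
        exact this.continuousAt.eventually (gt_mem_nhds hz₁1)
      filter_upwards [e1, e2] with z h1 h2 h3
      exact mem_core hT hP' hdense hhol hesc ht hch hlc hli z₁ h1 h2 h3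

end Pool.Agent.H220.K
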