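import Pool.Agent.H220.K.Defs

set_option autoImplicit false

open Set Filter Topology Metric
open scoped ContDiff ComplexConjugate

/-!
# MP_0015b7_an : the objects of the construction
-/

namespace Pool.Agent.H220.K

theorem two_le_infty : (2 : WithTop ℕ∞) ≤ ∞ := WithTop.coe_le_coe.mpr le_top

/-! ### The objects of the construction -/

/-- the space `ℂ³` -/
abbrev E3 := ℂ × ℂ × ℂ

/-- `A_n(p) = 2^{-n²} ∏_{j<n} (p - P_j)` -/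
noncomputable def A (P : ℕ → ℂ) (n : ℕ) (p : ℂ) : ℂ :=
  (1 / 2 : ℂ) ^ (n ^ 2) * ∏ j ∈ Finset.range n, (p - P j)

/-- `F_m (p, a, b) = (p, a', b + A_{2m+1}(p) a'^2)`, `a' = a + A_{2m}(p) b^2` -/
noncomputable def F (P : ℕ → ℂ) (m : ℕ) (x : E3) : E3 :=
  (x.1, x.2.1 + A P (2 * m) x.1 * x.2.2 ^ 2,
    x.2.2 + A P (2 * m + 1) x.1 * (x.2.1 + A P (2 * m) x.1 * x.2.2 ^ 2) ^ 2)

/-- the inverse of `F_m` -/
noncomputable def G (P : ℕ → ℂ) (m : ℕ) (x : E3) : E3 :=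
  (x.1, x.2.1 - A P (2 * m) x.1 * (x.2.2 - A P (2 * m + 1) x.1 * x.2.1 ^ 2) ^ 2,
    x.2.2 - A P (2 * m + 1) x.1 * x.2.1 ^ 2)

/-- `Phi m = F_{m-1} ∘ ... ∘ F_0` -/
noncomputable def Phi (P : ℕ → ℂ) : ℕ → E3 → E3
  | 0 => fun x => x
  | m + 1 => fun x => F P m (Phi P m x)

/-- `Psi m = G_0 ∘ ... ∘ G_{m-1}` -/
noncomputable def Psi (P : ℕ → ℂ) : ℕ → E3 → E3
  | 0 => fun x => x
  | m + 1 => fun x => Psi P m (G P m x)

/-- `tail N m = G_m ∘ ... ∘ G_{m+N-1}` (`N` factors) -/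
noncomputable def tail (P : ℕ → ℂ) : ℕ → ℕ → E3 → E3
  | 0, _ => fun x => x
  | N + 1, m => fun x => G P m (tail P N (m + 1) x)

/-- squared distance to the point `(P_j, conj P_j)` -/
noncomputable def D2 (P : ℕ → ℂ) (j : ℕ) (y : ℂ × ℂ) : ℝ :=
  ‖y.1 - P j‖ ^ 2 + ‖y.2 - conj (P j)‖ ^ 2

/-- `g0 = ∑ 2^{-j} (1/2) log D2_j` -/
noncomputable def g0 (P : ℕ → ℂ) (y : ℂ × ℂ) : ℝ :=
  ∑' j : ℕ, (1 / 2 : ℝ) ^ j * (1 / 2 * Real.log (D2 P j y))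

/-- truncated version of `g0` -/
noncomputable def gt (P : ℕ → ℂ) (δ : ℝ) (y : ℂ × ℂ) : ℝ :=
  ∑' j : ℕ, (1 / 2 : ℝ) ^ j * (1 / 2 * Real.log (max (D2 P j y) δ))

/-- the closed set `{(p, conj p) : |p| ≤ 1}` -/
def Pi0 : Set (ℂ × ℂ) := {y | y.2 = conj y.1 ∧ ‖y.1‖ ≤ 1}

/-- the totally real condition `q = conj p` -/
def Plane : Set E3 := {x | x.2.1 = conj x.1}

/-- the remaining part of the defining function -/
noncomputable def rest (x : E3) : ℝ :=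
  ‖x.1‖ ^ 2 + ‖x.2.1‖ ^ 2 - 20 + 1 / 2 * Real.log (1 + ‖x.2.2‖ ^ 2)

/-- the defining function in the coordinates `(p, q, w)` -/
noncomputable def vv (P : ℕ → ℂ) (x : E3) : ℝ := g0 P (x.1, x.2.1) + rest x

/-- the truncated defining function -/
noncomputable def vt (P : ℕ → ℂ) (δ : ℝ) (x : E3) : ℝ := gt P δ (x.1, x.2.1) + rest x

/-- the test function property (viscosity plurisubharmonicity) of `v` on `W` -/
def Visc (W : Set E3) (v : E3 → EReal) : Prop :=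
  ∀ x ∈ W, v x ≠ ⊥ → ∀ φ : E3 → ℝ, ContDiffAt ℝ 2 φ x →
    (∀ᶠ y in 𝓝 x, v y ≤ ((φ y - φ x + (v x).toReal : ℝ) : EReal)) → ∀ ξ : E3, 0 ≤ levi φ x ξ

end Pool.Agent.H220.K
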