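import Pool.Agent.H220.K.Dom

set_option autoImplicit false

open Set Filter Topology Metric
open scoped ContDiff ComplexConjugate

namespace Pool.Agent.H220.K

theorem loc_inv {Ψ : E3 → E3} {z : E3} (hΨ : ContDiff ℂ 2 Ψ)
    (hb : Function.Bijective (fderiv ℂ Ψ z)) :
    ∃ e : OpenPartialHomeomorph E3 E3, z ∈ e.source ∧ (∀ x, e x = Ψ x) ∧
      ContDiffAt ℂ 2 e.symm (Ψ z) := by
  set f' : E3 ≃L[ℂ] E3 :=
    (LinearEquiv.ofBijective (fderiv ℂ Ψ z : E3 →ₗ[ℂ] E3) hb).toContinuousLinearEquiv with hf'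
  have h1 : HasFDerivAt Ψ (f' : E3 →L[ℂ] E3) z := by
    have h2 : (f' : E3 →L[ℂ] E3) = fderiv ℂ Ψ z := by
      refine ContinuousLinearMap.ext fun v => ?_
      rfl
    rw [h2]
    exact (hΨ.differentiable (by norm_num) z).hasFDerivAt
  have hc : ContDiffAt ℂ 2 Ψ z := hΨ.contDiffAt
  have hn : (2 : WithTop ℕ∞) ≠ 0 := by norm_num
  refine ⟨hc.toOpenPartialHomeomorph Ψ h1 hn, hc.mem_toOpenPartialHomeomorph_source h1 hn,
    fun x => rfl, ?_⟩
  have h3 := hc.image_mem_toOpenPartialHomeomorph_target h1 hn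
  have h4 : (hc.toOpenPartialHomeomorph Ψ h1 hn).symm (Ψ z) = z :=
    (hc.toOpenPartialHomeomorph Ψ h1 hn).left_inv (hc.mem_toOpenPartialHomeomorph_source h1 hn)
  refine (hc.toOpenPartialHomeomorph Ψ h1 hn).contDiffAt_symm (f₀' := f') h3 ?_ ?_
  · rw [h4]; exact h1
  · rw [h4]; exact hc

/-- the entire curves are contained in the open set -/
theorem curve_mem {P : ℕ → ℂ} {T : ℕ → E3 → E3} (hT : Lim P T) (hP : ∀ j, ‖P j‖ ≤ 1)
    (hesc : S_esc) (j : ℕ) (w : ℂ) :
    Phi P (j + 1) (P j, conj (P j), w) ∈ OO P (T 0) := by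
  apply mem_OO_of_Pi0 hT hP hesc
  rw [hT.phi_inv (j := j) (by omega) rfl]
  exact ⟨rfl, hP j⟩

theorem mem_core {P : ℕ → ℂ} {T : ℕ → E3 → E3} (hT : Lim P T) (hP : ∀ j, ‖P j‖ ≤ 1)
    (hdense : ∀ p : ℂ, ‖p‖ < 1 → ∀ ε > 0, ∃ j, ‖P j - p‖ < ε)
    (hhol : S_hol) (hesc : S_esc) (ht : S_trunc) (hch : S_chain) (hlc : S_lcont)
    (hli : S_liou) (x₀ : E3) {z : E3}
    (hz : z ∈ connectedComponentIn (OO P (T 0)) x₀) (hz1 : ‖z.1‖ < 1) (hzP : T 0 z ∈ Plane) :
    z ∈ core (connectedComponentIn (OO P (T 0)) x₀) := by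
  refine ⟨hz, ?_⟩
  rintro ⟨φ, hφ, hpos⟩
  obtain ⟨e3, he3⟩ : ∃ e3 : E3, e3 = ((0 : ℂ), (0 : ℂ), (1 : ℂ)) := ⟨_, rfl⟩
  have hcd : ∀ {n : WithTop ℕ∞}, ContDiff ℂ n (T 0) := hT.contDiff hhol 0
  have hcont : Continuous (T 0) := (hcd (n := 0)).continuous
  have hOo : IsOpen (OO P (T 0)) := isOpen_OO hP ht hcont
  set Ω := connectedComponentIn (OO P (T 0)) x₀ with hΩ
  have hΩo : IsOpen Ω := hOo.connectedComponentIn
  have hφs : ∀ x ∈ Ω, ContDiffAt ℝ 2 φ x := fun x hx =>
    ((hφ.smooth x hx).contDiffAt (hΩo.mem_nhds hx)).of_le two_le_infty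
  obtain ⟨M, hM⟩ := hφ.bdd
  obtain ⟨e, hze, he, hes⟩ := loc_inv (hcd (n := 2)) (hT.bijective hhol z)
  set Y : E3 := T 0 z with hY
  have hYt : Y ∈ e.target := by rw [hY, ← he z]; exact e.map_source hze
  have hsY : e.symm Y = z := by rw [hY, ← he z]; exact e.left_inv hze
  have hright : ∀ y ∈ e.target, T 0 (e.symm y) = y := fun y hy => by
    rw [← he]; exact e.right_inv hy
  -- the neighbourhood of `Y` mapped into `Ω`
  have hsc : ContinuousAt e.symm Y := e.continuousAt_symm hYt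
  have hN : ∀ᶠ y in 𝓝 Y, y ∈ e.target ∧ e.symm y ∈ Ω := by
    have h1 : ∀ᶠ y in 𝓝 Y, y ∈ e.target := e.open_target.mem_nhds hYt
    have h2 : ∀ᶠ x in 𝓝 (e.symm Y), x ∈ Ω := by
      rw [hsY]
      exact hΩo.mem_nhds hz
    exact h1.and (hsc.eventually h2)
  set U : E3 → ℝ := fun y => φ (e.symm y) with hU
  have hUs : ContDiffAt ℝ 2 U Y := by
    have h1 : ContDiffAt ℝ 2 φ (e.symm Y) := by rw [hsY]; exact hφs z hz
    exact h1.comp Y (hes.restrict_scalars ℝ)
  -- the Levi form of `U` vanishes at the points `(P j, conj (P j), w)` near `Y`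
  have hvan : ∀ᶠ y in 𝓝 Y, ∀ j, y.1 = P j → y.2.1 = conj (P j) →
      levi U y e3 = 0 := by
    filter_upwards [hN.eventually_nhds] with y hy j hj1 hj2
    have hy0 := hy.self_of_nhds
    have key : ∀ y' ∈ e.target, y'.1 = P j → e.symm y' = Phi P (j + 1) y' := by
      intro y' hy' h1
      have h2 : (e.symm y').1 = P j := by
        rw [← hT.fst 0 (e.symm y'), hright y' hy', h1]
      have h3 := hT.eq_phi (j := j) (m := j + 1) (by omega) h2
      rw [hright y' hy'] at h3
      exact h3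
    -- the entire curve
    set L : ℂ → E3 := fun w => Phi P (j + 1) (P j, conj (P j), w) with hL
    have hLc : ∀ {n : WithTop ℕ∞}, ContDiff ℂ n L := by
      intro n
      have h1 : ContDiff ℂ n (fun w : ℂ => ((P j, conj (P j), w) : E3)) := by fun_prop
      exact (Phi_contDiff P (j + 1)).comp h1
    have hLO : ∀ w, L w ∈ OO P (T 0) := fun w => curve_mem hT hP hesc j w
    have hyL : e.symm y = L y.2.2 := by
      rw [key y hy0.1 hj1]
      simp only [hL]
      congr 1
      exact Prod.ext hj1 (Prod.ext hj2 rfl)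
    have hLΩ : ∀ w, L w ∈ Ω := by
      have h1 : L y.2.2 ∈ Ω := hyL ▸ hy0.2
      have h2 : Ω = connectedComponentIn (OO P (T 0)) (L y.2.2) := connectedComponentIn_eq h1
      have h3 : IsPreconnected (range L) :=
        isPreconnected_range (hLc (n := 0)).continuous
      have h4 : range L ⊆ connectedComponentIn (OO P (T 0)) (L y.2.2) :=
        h3.subset_connectedComponentIn ⟨_, rfl⟩ (by rintro _ ⟨w, rfl⟩; exact hLO w)
      intro w
      rw [h2]
      exact h4 ⟨w, rfl⟩
    have hconst : ∀ w w', φ (L w) = φ (L w') := by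
      apply hli (fun w => φ (L w)) M
      · rw [contDiff_iff_contDiffAt]
        intro w
        exact (hφs _ (hLΩ w)).comp w ((hLc (n := 2)).restrict_scalars ℝ).contDiffAt
      · intro ζ
        rw [hch.2 L φ ζ (hLc (n := 2)).contDiffAt (hφs _ (hLΩ ζ))]
        exact hφ.psh _ (hLΩ ζ) _
      · intro ζ
        exact hM _ (hLΩ ζ)
    rw [levi_line]
    apply levi_of_const_near (c := φ (L y.2.2))
    have hcl : Continuous (fun ζ : ℂ => y + ζ • e3) := by fun_prop
    have htend : Tendsto (fun ζ : ℂ => y + ζ • e3) (𝓝 0) (𝓝 y) := by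
      have := hcl.tendsto 0
      simpa using this
    filter_upwards [htend.eventually hy] with ζ hζ
    have e1 : y + ζ • e3 = (P j, conj (P j), y.2.2 + ζ) := by
      rw [he3]
      refine Prod.ext ?_ (Prod.ext ?_ ?_)
      · simp [hj1]
      · simp [hj2]
      · simp
    show φ (e.symm (y + ζ • e3)) = φ (L y.2.2)
    have h6 := hζ.1
    rw [e1] at h6 ⊢
    rw [key _ h6 rfl]
    exact hconst (y.2.2 + ζ) y.2.2
  -- by continuity it vanishes at `Y`
  have hYlev : levi U Y e3 = 0 := by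
    have hcY := hlc U Y e3 hUs
    have hc2 : ContinuousAt (fun y : E3 => levi U y e3) Y := by
      have h1 : ContinuousAt (fun y : E3 => (y, e3)) Y := by
        fun_prop
      exact ContinuousAt.comp (g := fun q : E3 × E3 => levi U q.1 q.2)
        (f := fun y : E3 => (y, e3)) (x := Y) hcY h1
    have hY1 : ‖Y.1‖ < 1 := by rw [hY, hT.fst]; exact hz1
    -- a sequence `P (j k) → Y.1`
    choose j hj using fun k : ℕ => hdense Y.1 hY1 (1 / ((k : ℝ) + 1)) (by positivity)
    have hjt : Tendsto (fun k => P (j k)) atTop (𝓝 Y.1) := by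
      rw [tendsto_iff_norm_sub_tendsto_zero]
      refine squeeze_zero (fun k => norm_nonneg _) (fun k => (hj k).le) ?_
      exact tendsto_one_div_add_atTop_nhds_zero_nat
    have hyt : Tendsto (fun k => ((P (j k), conj (P (j k)), Y.2.2) : E3)) atTop (𝓝 Y) := by
      have hY2 : Y = (Y.1, conj Y.1, Y.2.2) := Prod.ext rfl (Prod.ext hzP rfl)
      rw [hY2]
      exact hjt.prodMk_nhds (((Complex.continuous_conj.tendsto _).comp hjt).prodMk_nhds
        tendsto_const_nhds)
    set yk : ℕ → E3 := fun k => ((P (j k), conj (P (j k)), Y.2.2) : E3) with hyk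
    have h2 : Tendsto (fun k => levi U (yk k) e3) atTop
        (𝓝 (levi U Y e3)) := hc2.tendsto.comp hyt
    have h3 : ∀ᶠ k in atTop, levi U (yk k) e3 = 0 := by
      filter_upwards [hyt.eventually hvan] with k hk
      exact hk (j k) rfl rfl
    have h4 : Tendsto (fun k => levi U (yk k) e3) atTop (𝓝 0) := by
      refine Tendsto.congr' (f₁ := fun _ => (0 : ℝ)) ?_ tendsto_const_nhds
      filter_upwards [h3] with k hk
      exact hk.symm
    exact tendsto_nhds_unique h2 h4
  -- but it is positive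
  have h1 := hch.1 e.symm φ Y e3 hes (by rw [hsY]; exact hφs z hz)
  have h2 : levi φ (e.symm Y) (fderiv ℂ e.symm Y e3) = 0 := by
    rw [← h1]; exact hYlev
  rw [hsY] at h2
  have h3 : fderiv ℂ e.symm Y e3 ≠ 0 := by
    intro h4
    have h5 : HasFDerivAt (fun y => T 0 (e.symm y))
        ((fderiv ℂ (T 0) (e.symm Y)).comp (fderiv ℂ e.symm Y)) Y :=
      ((hT.diff hhol 0) (e.symm Y)).hasFDerivAt.comp Y
        (hes.differentiableAt (by norm_num)).hasFDerivAt
    have h6 : HasFDerivAt (fun y => T 0 (e.symm y)) (ContinuousLinearMap.id ℂ E3) Y := by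
      refine (hasFDerivAt_id Y).congr_of_eventuallyEq ?_
      filter_upwards [e.open_target.mem_nhds hYt] with y hy using hright y hy
    have h7 := DFunLike.congr_fun (h5.unique h6) e3
    rw [ContinuousLinearMap.comp_apply, h4, map_zero] at h7
    have h8 := congrArg (fun x : E3 => x.2.2) h7
    simp [he3] at h8
  have := hpos _ h3
  linarith

end Pool.Agent.H220.K
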