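import Mathlib

set_option autoImplicit false

open Set Filter Topology Metric
open scoped ContDiff ComplexConjugate

/-!
# MP_0015b7_an : Levi form, core, strictly pseudoconvex domains, pluripolar sets
-/

namespace Pool.Agent.H220.K

section General

variable {E : Type*} [NormedAddCommGroup E] [NormedSpace ℂ E]

/-- The Levi form of `φ` at `z` in the direction `ξ`: one quarter of the Laplacian at `ζ = 0` of
the function `ζ ↦ φ (z + ζ ξ)` of the complex variable `ζ`. -/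
noncomputable def levi (φ : E → ℝ) (z ξ : E) : ℝ :=
  (iteratedDeriv 2 (fun t : ℝ => φ (z + (t : ℂ) • ξ)) 0 +
    iteratedDeriv 2 (fun t : ℝ => φ (z + ((t : ℂ) * Complex.I) • ξ)) 0) / 4

/-- `u : V → [-∞, ∞)` is plurisubharmonic on the open set `V`: upper semicontinuous, with the
sub-mean value inequality on all circles of complex lines (the mean being tested on continuous
majorants of `u` on the circle). -/
structure PSH (V : Set E) (u : E → EReal) : Prop where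
  usc : UpperSemicontinuousOn u V
  ne_top : ∀ z ∈ V, u z ≠ ⊤
  mean : ∀ z ξ : E, (∀ ζ : ℂ, ‖ζ‖ ≤ 1 → z + ζ • ξ ∈ V) → ∀ h : ℂ → ℝ, Continuous h →
    (∀ ζ : ℂ, ‖ζ‖ = 1 → u (z + ζ • ξ) ≤ (h ζ : EReal)) →
      u z ≤ ((Real.circleAverage h 0 1 : ℝ) : EReal)

/-- every point has a connected open neighbourhood `V` and a plurisubharmonic `u ≢ -∞` on `V`
with `K ∩ V ⊆ {u = -∞}` -/
def Pluripolar (K : Set E) : Prop :=
  ∀ z : E, ∃ (V : Set E) (u : E → EReal), IsOpen V ∧ IsPreconnected V ∧ z ∈ V ∧ PSH V u ∧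
    (∃ w ∈ V, u w ≠ ⊥) ∧ ∀ w ∈ K ∩ V, u w = ⊥

variable [NormedSpace ℝ E]

/-- `φ` is a smooth plurisubharmonic function on the open set `Ω`, bounded from above -/
structure BddPsh (Ω : Set E) (φ : E → ℝ) : Prop where
  smooth : ContDiffOn ℝ ∞ φ Ω
  psh : ∀ z ∈ Ω, ∀ ξ : E, 0 ≤ levi φ z ξ
  bdd : ∃ M : ℝ, ∀ z ∈ Ω, φ z ≤ M

/-- the core of `Ω`: the points of `Ω` at which no smooth plurisubharmonic function on `Ω` that is
bounded from above is strictly plurisubharmonic -/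
def core (Ω : Set E) : Set E :=
  {z ∈ Ω | ¬ ∃ φ : E → ℝ, BddPsh Ω φ ∧ ∀ ξ : E, ξ ≠ 0 → 0 < levi φ z ξ}

/-- strictly pseudoconvex with smooth boundary -/
def StrictlyPseudoconvex (Ω : Set E) : Prop :=
  ∃ (U : Set E) (ρ : E → ℝ), IsOpen U ∧ frontier Ω ⊆ U ∧ ContDiffOn ℝ ∞ ρ U ∧
    (∀ z ∈ U, ∀ ξ : E, ξ ≠ 0 → 0 < levi ρ z ξ) ∧ Ω ∩ U = {z ∈ U | ρ z < 0} ∧
    ∀ z ∈ frontier Ω, fderiv ℝ ρ z ≠ 0

end General

end Pool.Agent.H220.K
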