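import Pool.Agent.H220.K.Alg

set_option autoImplicit false

open Set Filter Topology Metric
open scoped ContDiff ComplexConjugate

namespace Pool.Agent.H220.K

theorem isClosed_Pi0 : IsClosed Pi0 := by
  unfold Pi0
  exact (isClosed_eq continuous_snd (Complex.continuous_conj.comp continuous_fst)).inter
    (isClosed_le (continuous_norm.comp continuous_fst) continuous_const)

theorem continuous_rest : Continuous rest := by
  unfold rest
  have h1 : Continuous (fun x : E3 => Real.log (1 + ‖x.2.2‖ ^ 2)) := by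
    apply Continuous.log (by fun_prop)
    intro x
    positivity
  fun_prop

/-- the projection to the first two coordinates -/
def pr (x : E3) : ℂ × ℂ := (x.1, x.2.1)

theorem continuous_pr : Continuous pr := by unfold pr; fun_prop

theorem continuous_vt {P : ℕ → ℂ} (hP : ∀ j, ‖P j‖ ≤ 1) (ht : S_trunc) {δ : ℝ} (hδ : 0 < δ) :
    Continuous (vt P δ) := by
  unfold vt
  exact (((ht P hP).1 δ hδ).comp continuous_pr).add continuous_rest

/-- the open set whose component is the domain -/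
def OO (P : ℕ → ℂ) (Ψ : E3 → E3) : Set E3 := {x | ∃ δ : ℝ, 0 < δ ∧ vt P δ (Ψ x) < 0}

variable {P : ℕ → ℂ} {Ψ : E3 → E3}

theorem isOpen_OO (hP : ∀ j, ‖P j‖ ≤ 1) (ht : S_trunc) (hΨ : Continuous Ψ) :
    IsOpen (OO P Ψ) := by
  have : OO P Ψ = ⋃ δ : Ioi (0 : ℝ), {x | vt P δ (Ψ x) < 0} := by
    ext x
    simp only [OO, mem_ofPred_eq, mem_iUnion, Subtype.exists, mem_Ioi, exists_prop]
  rw [this]
  refine isOpen_iUnion fun δ => ?_
  exact isOpen_lt ((continuous_vt hP ht δ.2).comp hΨ) continuous_const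

theorem OO_iff (hP : ∀ j, ‖P j‖ ≤ 1) (ht : S_trunc) (hΨ : Continuous Ψ) {x : E3}
    (hx : pr (Ψ x) ∉ Pi0) : ∀ᶠ y in 𝓝 x, (y ∈ OO P Ψ ↔ vv P (Ψ y) < 0) := by
  obtain ⟨δ0, hδ0, h⟩ := (ht P hP).2.2.1 _ hx
  have h1 : Tendsto (fun y => pr (Ψ y)) (𝓝 x) (𝓝 (pr (Ψ x))) :=
    (continuous_pr.comp hΨ).tendsto x
  filter_upwards [h1.eventually h] with y hy
  constructor
  · rintro ⟨δ, hδ, hlt⟩
    have h2 : 0 < min δ δ0 := lt_min hδ hδ0
    have h3 := hy (min δ δ0) h2 (min_le_right _ _)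
    have h4 := (ht P hP).2.1 (min δ δ0) δ h2 (min_le_left _ _) (pr (Ψ y))
    have e1 : vv P (Ψ y) = gt P (min δ δ0) (pr (Ψ y)) + rest (Ψ y) := by
      rw [h3]; rfl
    have e2 : vt P δ (Ψ y) = gt P δ (pr (Ψ y)) + rest (Ψ y) := rfl
    linarith
  · intro hlt
    refine ⟨δ0, hδ0, ?_⟩
    have h3 := hy δ0 hδ0 le_rfl
    have e1 : vv P (Ψ y) = gt P δ0 (pr (Ψ y)) + rest (Ψ y) := by
      rw [h3]; rfl
    have e2 : vt P δ0 (Ψ y) = gt P δ0 (pr (Ψ y)) + rest (Ψ y) := rfl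
    linarith

theorem mem_OO_of_Pi0 {T : ℕ → E3 → E3} (hT : Lim P T) (hP : ∀ j, ‖P j‖ ≤ 1) (hesc : S_esc)
    {x : E3} (hx : pr (T 0 x) ∈ Pi0) : x ∈ OO P (T 0) := by
  obtain ⟨M, hM⟩ := hT.bdd x
  have e : T 0 x = ((T 0 x).1, conj (T 0 x).1, (T 0 x).2.2) := by
    refine Prod.ext rfl (Prod.ext ?_ rfl)
    exact hx.1
  rw [e] at hM
  obtain ⟨δ, hδ, h⟩ := hesc P hP (T 0 x).1 (T 0 x).2.2 M hx.2 hM
  refine ⟨δ, hδ, ?_⟩
  rw [e]
  exact h

/-- boundary points of a component of an open set are not in the open set -/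
theorem frontier_component {O : Set E3} (hO : IsOpen O) {x₀ z : E3}
    (hz : z ∈ frontier (connectedComponentIn O x₀)) : z ∉ O := by
  intro hzO
  have hopen : IsOpen (connectedComponentIn O z) := hO.connectedComponentIn
  have hzm : z ∈ connectedComponentIn O z := mem_connectedComponentIn hzO
  have hcl : z ∈ closure (connectedComponentIn O x₀) := hz.1
  obtain ⟨y, hy1, hy2⟩ := mem_closure_iff.mp hcl _ hopen hzm
  have e1 := connectedComponentIn_eq hy1
  have e2 := connectedComponentIn_eq hy2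
  have hzi : z ∈ connectedComponentIn O x₀ := by rw [e2, ← e1]; exact hzm
  have hopen0 : IsOpen (connectedComponentIn O x₀) := hO.connectedComponentIn
  exact hz.2 (by rw [hopen0.interior_eq]; exact hzi)

/-- strict pseudoconvexity of the component -/
theorem strictly {T : ℕ → E3 → E3} (hT : Lim P T) (hP : ∀ j, ‖P j‖ ≤ 1) (hhol : S_hol)
    (hesc : S_esc) (ht : S_trunc) (hvv : S_vv) (hch : S_chain) (hcomp : S_comp) (x₀ : E3) :
    StrictlyPseudoconvex (connectedComponentIn (OO P (T 0)) x₀) := by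
  have hcd : ∀ {n : WithTop ℕ∞}, ContDiff ℂ n (T 0) := hT.contDiff hhol 0
  have hcdr : ContDiff ℝ ∞ (T 0) := (hcd (n := ∞)).restrict_scalars ℝ
  have hcont : Continuous (T 0) := (hcd (n := 0)).continuous
  set O := OO P (T 0) with hOdef
  set Ω := connectedComponentIn O x₀ with hΩdef
  have hOo : IsOpen O := isOpen_OO hP ht hcont
  set ρ : E3 → ℝ := fun x => vv P (T 0 x) with hρ
  set Good : Set E3 := {x | pr (T 0 x) ∉ Pi0} with hGood
  have hGo : IsOpen Good := isClosed_Pi0.isOpen_compl.preimage (continuous_pr.comp hcont)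
  have hρs : ∀ x ∈ Good, ContDiffAt ℝ ∞ ρ x := by
    intro x hx
    have h1 : ContDiffAt ℝ ∞ (vv P) (T 0 x) := (hvv P hP (T 0 x) hx).1
    exact h1.comp x hcdr.contDiffAt
  have hfr : ∀ z ∈ frontier Ω, z ∈ Good := by
    intro z hz hcon
    exact frontier_component hOo hz (mem_OO_of_Pi0 hT hP hesc hcon)
  have hiff : ∀ x ∈ Good, ∀ᶠ y in 𝓝 x, (y ∈ O ↔ ρ y < 0) := fun x hx => OO_iff hP ht hcont hx
  have hzero : ∀ z ∈ frontier Ω, ρ z = 0 := by
    intro z hz
    have hG := hfr z hz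
    have h1 : ¬ ρ z < 0 := fun h => frontier_component hOo hz ((hiff z hG).self_of_nhds.mpr h)
    apply le_antisymm _ (not_lt.mp h1)
    by_contra hcon
    push Not at hcon
    have h2 : ∀ᶠ y in 𝓝 z, 0 < ρ y :=
      (hρs z hG).continuousAt.eventually (lt_mem_nhds hcon)
    have h3 := (h2.and (hiff z hG))
    obtain ⟨y, hy, hyΩ⟩ := mem_closure_iff_nhds.mp hz.1 _ h3
    have h4 : y ∈ O := connectedComponentIn_subset _ _ hyΩ
    have h5 := hy.2.mp h4
    have h6 := hy.1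
    linarith
  have hgrad : ∀ z ∈ frontier Ω, fderiv ℝ ρ z ≠ 0 := by
    intro z hz
    have hG := hfr z hz
    have h1 := (hvv P hP (T 0 z) hG).2.2 (hzero z hz)
    have h2 : DifferentiableAt ℝ (vv P) (T 0 z) :=
      (hvv P hP (T 0 z) hG).1.differentiableAt (by norm_num)
    have hd : DifferentiableAt ℂ (T 0) z := hT.diff hhol 0 z
    have h3 : HasFDerivAt ρ ((fderiv ℝ (vv P) (T 0 z)).comp
        ((fderiv ℂ (T 0) z).restrictScalars ℝ)) z :=
      h2.hasFDerivAt.comp z (hd.hasFDerivAt.restrictScalars ℝ)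
    rw [h3.fderiv]
    intro h4
    apply h1
    refine ContinuousLinearMap.ext fun v => ?_
    obtain ⟨u, rfl⟩ := (hT.bijective hhol z).2 v
    have := DFunLike.congr_fun h4 u
    simpa using this
  refine ⟨{y | y ∈ Good ∧ ∀ᶠ y' in 𝓝 y, (y' ∈ Ω ↔ ρ y' < 0)}, ρ, ?_, ?_, ?_, ?_, ?_, hgrad⟩
  · exact hGo.inter isOpen_setOfPred_eventually_nhds
  · intro z hz
    have hG := hfr z hz
    refine ⟨hG, ?_⟩
    exact hcomp ρ O x₀ z hOo hz (hiff z hG)
      ((hρs z hG).of_le (by exact_mod_cast le_top)) (hgrad z hz)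
  · intro x hx
    exact (hρs x hx.1).contDiffWithinAt
  · intro z hz ξ hξ
    have h1 := hch.1 (T 0) (vv P) z ξ hcd.contDiffAt
      ((hvv P hP (T 0 z) hz.1).1.of_le two_le_infty)
    show 0 < levi (fun y => vv P (T 0 y)) z ξ
    rw [h1]
    apply (hvv P hP (T 0 z) hz.1).2.1
    intro h2
    apply hξ
    apply (hT.bijective hhol z).1
    rw [h2, map_zero]
  · ext y
    constructor
    · rintro ⟨h1, h2⟩
      exact ⟨h2, h2.2.self_of_nhds.mp h1⟩
    · rintro ⟨h1, h2⟩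
      exact ⟨h1.2.self_of_nhds.mpr h2, h1⟩

end Pool.Agent.H220.K
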