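import Pool.Agent.H220.K.Base

set_option autoImplicit false

open Set Filter Topology Metric
open scoped ContDiff ComplexConjugate

/-!
# Basic calculus of the Levi form (proved)
-/

namespace Pool.Agent.H220.K

/-- the second derivative of the square of the modulus of a curve -/
theorem second_norm_sq {a a' : ℝ → ℂ} {a2 : ℂ} (h1 : ∀ᶠ t in 𝓝 (0 : ℝ), HasDerivAt a (a' t) t)
    (h2 : HasDerivAt a' a2 0) :
    iteratedDeriv 2 (fun t => ‖a t‖ ^ 2) 0 = 2 * (‖a' 0‖ ^ 2 + (conj (a 0) * a2).re) := by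
  have hre : ∀ {f : ℝ → ℂ} {f' : ℂ} {t : ℝ}, HasDerivAt f f' t →
      HasDerivAt (fun t => (f t).re) f'.re t := fun h =>
    (Complex.reCLM.hasFDerivAt.comp_hasDerivAt _ h)
  have him : ∀ {f : ℝ → ℂ} {f' : ℂ} {t : ℝ}, HasDerivAt f f' t →
      HasDerivAt (fun t => (f t).im) f'.im t := fun h =>
    (Complex.imCLM.hasFDerivAt.comp_hasDerivAt _ h)
  have e : (fun t => ‖a t‖ ^ 2) = fun t => (a t).re * (a t).re + (a t).im * (a t).im := by
    funext t; rw [Complex.sq_norm, Complex.normSq_apply]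
  have hd : ∀ᶠ t in 𝓝 (0 : ℝ), deriv (fun t => ‖a t‖ ^ 2) t =
      2 * ((a t).re * (a' t).re + (a t).im * (a' t).im) := by
    filter_upwards [h1] with t ht
    rw [e]
    have : HasDerivAt (fun t => (a t).re * (a t).re + (a t).im * (a t).im) _ t :=
      ((hre ht).mul (hre ht)).add ((him ht).mul (him ht))
    rw [this.deriv]; ring
  rw [iteratedDeriv_succ, iteratedDeriv_one]
  have h0 := h1.self_of_nhds
  have hd2 : HasDerivAt (fun t => 2 * ((a t).re * (a' t).re + (a t).im * (a' t).im))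
      (2 * (((a' 0).re * (a' 0).re + (a 0).re * a2.re) +
        ((a' 0).im * (a' 0).im + (a 0).im * a2.im))) 0 :=
    (((hre h0).mul (hre h2)).add ((him h0).mul (him h2))).const_mul 2
  rw [Filter.EventuallyEq.deriv_eq hd, hd2.deriv, Complex.sq_norm, Complex.normSq_apply]
  simp only [Complex.mul_re, Complex.conj_re, Complex.conj_im]
  ring

/-- second derivative at a local maximum -/
theorem second_le_zero {v : ℝ → ℝ} (hmax : IsLocalMax v 0) (hv : ContinuousAt v 0) :
    iteratedDeriv 2 v 0 ≤ 0 := by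
  rw [iteratedDeriv_succ, iteratedDeriv_one]
  by_contra hcon
  push Not at hcon
  have h0 : deriv v 0 = 0 := hmax.deriv_eq_zero
  have hmin := isLocalMin_of_deriv_deriv_pos hcon h0 hv
  have heq : v =ᶠ[𝓝 0] fun _ => v 0 := by
    filter_upwards [hmax, hmin] with t h1 h2 using le_antisymm h1 h2
  have h1 : deriv v =ᶠ[𝓝 0] deriv (fun _ => v 0) := heq.deriv
  have h2 : deriv (deriv v) 0 = deriv (deriv (fun _ : ℝ => v 0)) 0 := h1.deriv_eq
  simp at h2
  linarith

section General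

variable {E : Type*} [NormedAddCommGroup E] [NormedSpace ℂ E]

theorem levi_congr {u v : E → ℝ} {z : E} (h : ∀ᶠ y in 𝓝 z, u y = v y) (ξ : E) :
    levi u z ξ = levi v z ξ := by
  have key : ∀ c : ℂ, iteratedDeriv 2 (fun t : ℝ => u (z + ((t : ℂ) * c) • ξ)) 0 =
      iteratedDeriv 2 (fun t : ℝ => v (z + ((t : ℂ) * c) • ξ)) 0 := by
    intro c
    have hc : Tendsto (fun t : ℝ => z + ((t : ℂ) * c) • ξ) (𝓝 0) (𝓝 z) := by
      have : Continuous (fun t : ℝ => z + ((t : ℂ) * c) • ξ) := by fun_prop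
      simpa using this.tendsto 0
    have h1 : (fun t : ℝ => u (z + ((t : ℂ) * c) • ξ)) =ᶠ[𝓝 0]
        (fun t : ℝ => v (z + ((t : ℂ) * c) • ξ)) := hc.eventually h
    rw [iteratedDeriv_succ, iteratedDeriv_one, iteratedDeriv_succ, iteratedDeriv_one]
    exact h1.deriv.deriv_eq
  have k1 := key 1
  have k2 := key Complex.I
  simp only [mul_one] at k1
  unfold levi
  rw [k1, k2]

theorem levi_const (c : ℝ) (z ξ : E) : levi (fun _ => c) z ξ = 0 := by
  unfold levi
  simp [iteratedDeriv_succ]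

theorem levi_of_const_near {φ : E → ℝ} {z : E} {c : ℝ} (h : ∀ᶠ y in 𝓝 z, φ y = c) (ξ : E) :
    levi φ z ξ = 0 := by
  rw [levi_congr h, levi_const]

/-- the Levi form is the Levi form of the restriction to the complex line -/
theorem levi_line (φ : E → ℝ) (z ξ : E) :
    levi φ z ξ = levi (fun ζ : ℂ => φ (z + ζ • ξ)) 0 1 := by
  unfold levi
  simp

/-- Levi form of the squared modulus of a function that is holomorphic along the line -/
theorem levi_norm_sq {f : E → ℂ} {p ξ : E} {h' : ℂ → ℂ} {h2 : ℂ}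
    (hf : ∀ᶠ ζ in 𝓝 (0 : ℂ), HasDerivAt (fun ζ : ℂ => f (p + ζ • ξ)) (h' ζ) ζ)
    (hf2 : HasDerivAt h' h2 0) :
    levi (fun q => ‖f q‖ ^ 2) p ξ = ‖h' 0‖ ^ 2 := by
  have key : ∀ c : ℂ, iteratedDeriv 2 (fun t : ℝ => ‖f (p + ((t : ℂ) * c) • ξ)‖ ^ 2) 0 =
      2 * (‖h' 0 * c‖ ^ 2 + (conj (f p) * (h2 * c * c)).re) := by
    intro c
    have hlin : ∀ t : ℝ, HasDerivAt (fun t : ℝ => (t : ℂ) * c) c t := by
      intro t
      have := (Complex.ofRealCLM.hasDerivAt (x := t)).mul_const c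
      simpa using this
    have htend : Tendsto (fun t : ℝ => (t : ℂ) * c) (𝓝 0) (𝓝 0) := by
      have : Continuous (fun t : ℝ => (t : ℂ) * c) := by fun_prop
      simpa using this.tendsto 0
    have h1 : ∀ᶠ t : ℝ in 𝓝 (0 : ℝ), HasDerivAt (fun t : ℝ => f (p + ((t : ℂ) * c) • ξ))
        (h' ((t : ℂ) * c) * c) t := by
      filter_upwards [htend.eventually hf] with t ht
      exact ht.scomp_of_eq t (hlin t) rfl |>.congr_deriv (by rw [smul_eq_mul, mul_comm])
    have h0 : HasDerivAt h' h2 (((0 : ℝ) : ℂ) * c) := by simpa using hf2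
    have h3 : HasDerivAt (fun t : ℝ => h' ((t : ℂ) * c) * c) (h2 * c * c) 0 := by
      have := (h0.scomp_of_eq (0 : ℝ) (hlin 0) rfl).mul_const c
      refine this.congr_deriv ?_
      rw [smul_eq_mul]; ring
    have := second_norm_sq h1 h3
    simpa using this
  have k1 := key 1
  have k2 := key Complex.I
  simp only [mul_one] at k1
  unfold levi
  rw [k1, k2]
  have e : h2 * Complex.I * Complex.I = -h2 := by
    rw [mul_assoc, Complex.I_mul_I]; ring
  rw [e, norm_mul, Complex.norm_I]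
  simp only [mul_neg, Complex.neg_re]
  ring

variable [NormedSpace ℝ E] [IsScalarTower ℝ ℂ E]

theorem line_contDiff {φ : E → ℝ} {p v : E} {c : ℂ} {n : WithTop ℕ∞} (hu : ContDiffAt ℝ n φ p) :
    ContDiffAt ℝ n (fun t : ℝ => φ (p + ((t : ℂ) * c) • v)) 0 := by
  have h1 : ContDiff ℝ n (fun t : ℝ => p + ((t : ℂ) * c) • v) :=
    contDiff_const.add ((Complex.ofRealCLM.contDiff.mul contDiff_const).smul contDiff_const)
  have h2 : ContDiffAt ℝ n φ (p + (((0 : ℝ) : ℂ) * c) • v) := by simpa using hu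
  exact ContDiffAt.comp (g := φ) (0 : ℝ) h2 h1.contDiffAt

theorem line_contDiff' {φ : E → ℝ} {p v : E} {n : WithTop ℕ∞} (hu : ContDiffAt ℝ n φ p) :
    ContDiffAt ℝ n (fun t : ℝ => φ (p + (t : ℂ) • v)) 0 := by
  have := line_contDiff (v := v) (c := 1) hu
  simpa using this

theorem levi_add {u v : E → ℝ} {p ξ : E} (hu : ContDiffAt ℝ 2 u p)
    (hv : ContDiffAt ℝ 2 v p) : levi (fun z => u z + v z) p ξ = levi u p ξ + levi v p ξ := by
  unfold levi
  have e1 : iteratedDeriv 2 (fun t : ℝ => u (p + (t : ℂ) • ξ) + v (p + (t : ℂ) • ξ)) 0 = _ :=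
    iteratedDeriv_add (n := 2) (line_contDiff' (v := ξ) hu) (line_contDiff' (v := ξ) hv)
  have e2 : iteratedDeriv 2 (fun t : ℝ => u (p + ((t : ℂ) * Complex.I) • ξ) +
      v (p + ((t : ℂ) * Complex.I) • ξ)) 0 = _ :=
    iteratedDeriv_add (n := 2) (line_contDiff (v := ξ) (c := Complex.I) hu)
      (line_contDiff (v := ξ) (c := Complex.I) hv)
  rw [e1, e2]
  ring

theorem levi_const_mul {u : E → ℝ} {p ξ : E} (hu : ContDiffAt ℝ 2 u p) (c : ℝ) :
    levi (fun z => c * u z) p ξ = c * levi u p ξ := by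
  unfold levi
  have e1 := iteratedDeriv_const_mul (n := 2) c (line_contDiff' (v := ξ) hu)
  have e2 := iteratedDeriv_const_mul (n := 2) c (line_contDiff (v := ξ) (c := Complex.I) hu)
  rw [e1, e2]
  ring

/-- at a local maximum the Levi form of a `C²` function is nonpositive -/
theorem levi_le_zero {v : E → ℝ} {p : E} (hmax : IsLocalMax v p) (hv : ContinuousAt v p) (ξ : E) :
    levi v p ξ ≤ 0 := by
  have key : ∀ c : ℂ, iteratedDeriv 2 (fun t : ℝ => v (p + ((t : ℂ) * c) • ξ)) 0 ≤ 0 := by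
    intro c
    have hcont : Continuous (fun t : ℝ => p + ((t : ℂ) * c) • ξ) := by fun_prop
    have h0 : p + (((0 : ℝ) : ℂ) * c) • ξ = p := by simp
    apply second_le_zero
    · have h1 := (hcont.tendsto 0)
      rw [h0] at h1
      have := h1.eventually hmax
      unfold IsLocalMax IsMaxFilter
      simpa using this
    · have h2 : ContinuousAt v (p + (((0 : ℝ) : ℂ) * c) • ξ) := by rw [h0]; exact hv
      exact ContinuousAt.comp (g := v) (x := (0 : ℝ)) h2 hcont.continuousAt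
  have k1 := key 1
  have k2 := key Complex.I
  simp only [mul_one] at k1
  unfold levi
  linarith

end General

theorem levi_log_norm {p ξ : ℂ} (hp : p ≠ 0) : levi (fun z : ℂ => Real.log ‖z‖) p ξ = 0 := by
  have key : ∀ v : ℂ, iteratedDeriv 2 (fun t : ℝ => Real.log ‖p + (t : ℂ) * v‖) 0 =
      (2 * ‖v‖ ^ 2 * ‖p‖ ^ 2 - (2 * (p.re * v.re + p.im * v.im)) ^ 2) / (2 * (‖p‖ ^ 2) ^ 2) := by
    intro v
    set q : ℝ → ℝ := fun t => ‖p‖ ^ 2 + 2 * (p.re * v.re + p.im * v.im) * t + ‖v‖ ^ 2 * t ^ 2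
      with hq
    have hqe : ∀ t : ℝ, ‖p + (t : ℂ) * v‖ ^ 2 = q t := by
      intro t
      rw [hq]
      simp only [Complex.sq_norm, Complex.normSq_apply]
      simp
      ring
    have e : (fun t : ℝ => Real.log ‖p + (t : ℂ) * v‖) = fun t => (1 / 2) * Real.log (q t) := by
      funext t
      rw [← hqe, Real.log_pow]
      push_cast; ring
    rw [e]
    have hq0 : 0 < q 0 := by
      have : 0 < ‖p‖ := norm_pos_iff.mpr hp
      have e0 : q 0 = ‖p‖ ^ 2 := by simp [hq]
      rw [e0]; positivity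
    have hqc : Continuous q := by simp only [hq]; fun_prop
    have hqd : ∀ t, HasDerivAt q (2 * (p.re * v.re + p.im * v.im) + ‖v‖ ^ 2 * (2 * t)) t := by
      intro t
      have h1 := ((hasDerivAt_id t).const_mul (2 * (p.re * v.re + p.im * v.im))).const_add (‖p‖ ^ 2)
      have h2 := (hasDerivAt_pow 2 t).const_mul (‖v‖ ^ 2)
      have h3 : HasDerivAt q _ t := h1.add h2
      refine h3.congr_deriv ?_
      simp
    have hd : ∀ᶠ t in 𝓝 (0 : ℝ), deriv (fun t => (1 / 2) * Real.log (q t)) t =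
        (2 * (p.re * v.re + p.im * v.im) + ‖v‖ ^ 2 * (2 * t)) / (2 * q t) := by
      filter_upwards [hqc.continuousAt.eventually (lt_mem_nhds hq0)] with t ht
      have := ((hqd t).log (ne_of_gt ht)).const_mul (1 / 2)
      rw [this.deriv]
      field_simp
    rw [iteratedDeriv_succ, iteratedDeriv_one, Filter.EventuallyEq.deriv_eq hd]
    have hn : HasDerivAt (fun t : ℝ => 2 * (p.re * v.re + p.im * v.im) + ‖v‖ ^ 2 * (2 * t))
        (‖v‖ ^ 2 * 2) 0 := by
      have := (((hasDerivAt_id (0 : ℝ)).const_mul 2).const_mul (‖v‖ ^ 2)).const_add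
        (2 * (p.re * v.re + p.im * v.im))
      simpa using this
    have hdd := hn.div ((hqd 0).const_mul 2) (by positivity)
    have hdd' : deriv (fun t : ℝ => (2 * (p.re * v.re + p.im * v.im) + ‖v‖ ^ 2 * (2 * t)) /
      (2 * q t)) 0 = _ := hdd.deriv
    rw [hdd']
    have hq00 : q 0 = ‖p‖ ^ 2 := by simp [hq]
    rw [hq00]
    have : 0 < ‖p‖ := norm_pos_iff.mpr hp
    field_simp
    ring
  have k1 := key ξ
  have k2 := key (Complex.I * ξ)
  unfold levi
  have e1 : (fun t : ℝ => Real.log ‖p + (t : ℂ) • ξ‖) = fun t : ℝ => Real.log ‖p + (t : ℂ) * ξ‖ := by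
    funext t; rw [smul_eq_mul]
  have e2 : (fun t : ℝ => Real.log ‖p + ((t : ℂ) * Complex.I) • ξ‖) =
      fun t : ℝ => Real.log ‖p + (t : ℂ) * (Complex.I * ξ)‖ := by
    funext t; rw [smul_eq_mul, mul_assoc]
  rw [e1, e2, k1, k2]
  have hpn : ‖p‖ ^ 2 = p.re * p.re + p.im * p.im := by rw [Complex.sq_norm, Complex.normSq_apply]
  have hxn : ‖ξ‖ ^ 2 = ξ.re * ξ.re + ξ.im * ξ.im := by rw [Complex.sq_norm, Complex.normSq_apply]
  have : 0 < ‖p‖ := norm_pos_iff.mpr hp
  rw [norm_mul, Complex.norm_I, one_mul]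
  simp only [Complex.mul_re, Complex.mul_im, Complex.I_re, Complex.I_im]
  rw [← add_div, div_div, div_eq_zero_iff]
  left
  rw [hpn, hxn]
  ring

theorem contDiffAt_log_norm {p : ℂ} {n : WithTop ℕ∞} (hp : p ≠ 0) :
    ContDiffAt ℝ n (fun z : ℂ => Real.log ‖z‖) p :=
  (contDiffAt_norm ℂ hp).log (norm_ne_zero_iff.mpr hp)

end Pool.Agent.H220.K
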